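import Pool.Agent.W146.SD.Stm

/-! # (A1): an order with odd back-degrees on `J` gives `∂_J P_A ≠ 0` -/

set_option autoImplicit false

namespace Pool.Agent.W146.SD

open Finset MvPolynomial Pool.Agent.W390.SD

/-- iterated derivative along a list -/
noncomputable def ddl {V : Type} (l : List V) (f : R V) : R V :=
  l.foldr (fun v g => pderiv v g) f

theorem dd_apply {V : Type} [DecidableEq V] (J : Finset V) (f : R V) :
    dd J f = ddl J.toList f := by
  unfold dd ddl
  induction J.toList with
  | nil => rfl
  | cons a l ih =>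
    simp only [List.foldr_cons, LinearMap.comp_apply]
    rw [ih]
    rfl

theorem coeff_ddl {V : Type} (l : List V) (hl : l.Nodup) (f : R V) :
    ∀ m : V →₀ ℕ, coeff m (ddl l f) =
      coeff (m + (l.map (fun v => Finsupp.single v 1)).sum) f *
        (l.map (fun v => ((m v : ZMod 2) + 1))).prod := by
  classical
  induction l with
  | nil => intro m; simp [ddl]
  | cons a l ih =>
    intro m
    rw [List.nodup_cons] at hl
    have h1 : ddl (a :: l) f = pderiv a (ddl l f) := rfl
    rw [h1, coeff_pderiv, ih hl.2]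
    simp only [List.map_cons, List.sum_cons, List.prod_cons]
    have h2 : (l.map (fun v => (((m + Finsupp.single a 1 : V →₀ ℕ) v : ZMod 2) + 1))) =
        (l.map (fun v => ((m v : ZMod 2) + 1))) := by
      apply List.map_congr_left
      intro v hv
      have : a ≠ v := by rintro rfl; exact hl.1 hv
      rw [Finsupp.add_apply, Finsupp.single_apply, if_neg this, add_zero]
    rw [h2, add_assoc]
    ring

/-- `∂_J f ≠ 0` iff some monomial of `f` has odd exponents on `J`. -/
theorem dd_ne_zero_iff {V : Type} [DecidableEq V] (J : Finset V) (f : R V) :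
    dd J f ≠ 0 ↔ ∃ m : V →₀ ℕ, coeff m f ≠ 0 ∧ ∀ v ∈ J, (m v : ZMod 2) = 1 := by
  rw [dd_apply]
  constructor
  · intro h
    obtain ⟨m, hm⟩ := (MvPolynomial.ne_zero_iff).1 h
    rw [coeff_ddl _ (Finset.nodup_toList J)] at hm
    refine ⟨_, left_ne_zero_of_mul hm, ?_⟩
    intro v hv
    have h2 := right_ne_zero_of_mul hm
    have h3 : ((m v : ZMod 2) + 1) ≠ 0 := by
      intro h0
      apply h2
      apply List.prod_eq_zero
      rw [List.mem_map]
      exact ⟨v, by simpa using hv, h0⟩
    have h4 : ((J.toList.map (fun v => (Finsupp.single v 1 : V →₀ ℕ))).sum) v = 1 := by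
      have : (J.toList.map (fun v => (Finsupp.single v 1 : V →₀ ℕ))).sum =
          ∑ v ∈ J, (Finsupp.single v 1 : V →₀ ℕ) := by
        rw [Finset.sum_map_toList]
      rw [this, Finsupp.finsetSum_apply]
      rw [Finset.sum_eq_single v]
      · simp
      · intro b _ hb
        rw [Finsupp.single_apply, if_neg hb]
      · intro h; exact absurd hv h
    rw [Finsupp.add_apply, h4]
    push_cast
    revert h3
    generalize (m v : ZMod 2) = c
    revert c
    decide
  · rintro ⟨m, hm, hJ⟩
    apply (MvPolynomial.ne_zero_iff).2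
    have hle : (J.toList.map (fun v => (Finsupp.single v 1 : V →₀ ℕ))).sum ≤ m := by
      have : (J.toList.map (fun v => (Finsupp.single v 1 : V →₀ ℕ))).sum =
          ∑ v ∈ J, (Finsupp.single v 1 : V →₀ ℕ) := by
        rw [Finset.sum_map_toList]
      rw [this]
      intro v
      rw [Finsupp.finsetSum_apply]
      by_cases hv : v ∈ J
      · rw [Finset.sum_eq_single v]
        · rw [Finsupp.single_eq_same]
          rcases Nat.eq_zero_or_pos (m v) with h0 | h0
          · have := hJ v hv
            rw [h0] at this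
            exact absurd this (by decide)
          · exact h0
        · intro b _ hb
          rw [Finsupp.single_apply, if_neg hb]
        · intro h; exact absurd hv h
      · rw [Finset.sum_eq_zero]
        · exact Nat.zero_le _
        · intro b hb
          rw [Finsupp.single_apply, if_neg]
          rintro rfl; exact hv hb
    obtain ⟨n, hn⟩ := exists_add_of_le hle
    refine ⟨n, ?_⟩
    rw [coeff_ddl _ (Finset.nodup_toList J)]
    rw [add_comm n, ← hn]
    apply mul_ne_zero hm
    apply List.prod_ne_zero
    intro h0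
    rw [List.mem_map] at h0
    obtain ⟨v, hv, h0⟩ := h0
    have hv' : v ∈ J := by simpa using hv
    have h5 := hJ v hv'
    have h4 : ((J.toList.map (fun v => (Finsupp.single v 1 : V →₀ ℕ))).sum) v = 1 := by
      have : (J.toList.map (fun v => (Finsupp.single v 1 : V →₀ ℕ))).sum =
          ∑ v ∈ J, (Finsupp.single v 1 : V →₀ ℕ) := by
        rw [Finset.sum_map_toList]
      rw [this, Finsupp.finsetSum_apply]
      rw [Finset.sum_eq_single v]
      · simp
      · intro b _ hb
        rw [Finsupp.single_apply, if_neg hb]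
      · intro h; exact absurd hv' h
    rw [hn, Finsupp.add_apply, h4] at h5
    push_cast at h5
    revert h5 h0
    generalize (n v : ZMod 2) = c
    revert c
    decide

theorem mem_edg {V : Type} [Fintype V] [DecidableEq V] {A : Gr V} (hA : IsGr A) {u v : V} :
    s(u, v) ∈ edg A ↔ A u v ≠ 0 := by
  unfold edg
  simp only [mem_image, mem_filter, mem_univ, true_and, Prod.exists]
  constructor
  · rintro ⟨a, b, h, he⟩
    rcases Sym2.eq_iff.1 he with ⟨rfl, rfl⟩ | ⟨rfl, rfl⟩
    · exact h
    · rw [hA.symm]; exact h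
  · intro h; exact ⟨u, v, h, rfl⟩

theorem fac_mk {V : Type} (u v : V) : fac s(u, v) = X u + X v := rfl

theorem fac_ne_zero {V : Type} {u v : V} (h : u ≠ v) : fac s(u, v) ≠ 0 := by
  classical
  rw [fac_mk]
  intro h0
  have := congrArg (coeff (Finsupp.single u 1)) h0
  rw [coeff_add, coeff_X, coeff_X, if_pos rfl, if_neg, coeff_zero, add_zero] at this
  · exact one_ne_zero this
  · intro h1
    exact h (Finsupp.single_left_injective one_ne_zero h1).symm

theorem bd_eq_card {V : Type} [Fintype V] (A : Gr V) (σ : V → ℤ) (v : V) :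
    bd A σ v = (((univ.filter fun w => σ w < σ v ∧ A v w ≠ 0).card : ℕ) : ZMod 2) := by
  unfold bd
  rw [Finset.card_filter]
  push_cast
  apply Finset.sum_congr rfl
  intro w _
  by_cases h : σ w < σ v
  · rw [if_pos h]
    have : ∀ c : ZMod 2, c = if c ≠ 0 then 1 else 0 := by decide
    have h2 := this (A v w)
    by_cases h3 : A v w ≠ 0
    · rw [if_pos ⟨h, h3⟩]; rw [if_pos h3] at h2; exact h2
    · rw [if_neg (fun h' => h3 h'.2)]; rw [if_neg h3] at h2; exact h2
  · rw [if_neg h, if_neg (fun h' => h h'.1)]

theorem edge_count {V : Type} [Fintype V] [DecidableEq V] {A : Gr V} (hA : IsGr A)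
    {σ : V → ℤ} (hσ : Function.Injective σ) (g : Sym2 V → ℕ) (v : V)
    (hg : ∀ u w, σ u < σ w → g s(u, w) = if w = v then 1 else 0) :
    ∑ e ∈ edg A, g e = (univ.filter fun w => σ w < σ v ∧ A v w ≠ 0).card := by
  have h1 : ∑ e ∈ edg A, g e = ∑ e ∈ (edg A).filter (fun e => ∃ w, e = s(w, v) ∧ σ w < σ v), 1 := by
    rw [Finset.sum_filter]
    apply Finset.sum_congr rfl
    intro e he
    induction e using Sym2.ind with
    | _ a b =>
      rw [mem_edg hA] at he
      have hab : a ≠ b := by rintro rfl; exact he (hA.diag a)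
      rcases lt_trichotomy (σ a) (σ b) with h | h | h
      · rw [hg a b h]
        by_cases hb : b = v
        · subst hb
          rw [if_pos rfl, if_pos ⟨a, rfl, h⟩]
        · rw [if_neg hb, if_neg]
          rintro ⟨w, hw, hlt⟩
          rcases Sym2.eq_iff.1 hw with ⟨rfl, rfl⟩ | ⟨rfl, rfl⟩
          · exact hb rfl
          · exact absurd h (not_lt.2 hlt.le)
      · exact absurd (hσ h) hab
      · rw [Sym2.eq_swap, hg b a h]
        by_cases hb : a = v
        · subst hb
          rw [if_pos rfl, if_pos ⟨b, rfl, h⟩]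
        · rw [if_neg hb, if_neg]
          rintro ⟨w, hw, hlt⟩
          rcases Sym2.eq_iff.1 hw with ⟨rfl, rfl⟩ | ⟨rfl, rfl⟩
          · exact hb rfl
          · exact absurd h (not_lt.2 hlt.le)
  rw [h1, ← Finset.card_eq_sum_ones]
  have h2 : (edg A).filter (fun e => ∃ w, e = s(w, v) ∧ σ w < σ v) =
      (univ.filter fun w => σ w < σ v ∧ A v w ≠ 0).image (fun w => s(w, v)) := by
    ext e
    simp only [mem_filter, mem_image, mem_univ, true_and]
    constructor
    · rintro ⟨he, w, rfl, hw⟩
      rw [mem_edg hA, hA.symm] at he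
      exact ⟨w, ⟨hw, he⟩, rfl⟩
    · rintro ⟨w, ⟨hw, he⟩, rfl⟩
      rw [mem_edg hA, hA.symm]
      exact ⟨he, w, rfl, hw⟩
  rw [h2, Finset.card_image_of_injective]
  intro a b hab
  rcases Sym2.eq_iff.1 hab with ⟨h, _⟩ | ⟨h, h'⟩
  · exact h
  · exact h.trans h'

theorem A1 : S_A1 := by
  intro V _ dV A hA σ hσ J hJ
  unfold PJ
  rw [dd_ne_zero_iff]
  letI ord : LinearOrder V := LinearOrder.lift' (fun v => -σ v) (fun a b h => hσ (neg_injective h))
  let m : MonomialOrder V := MonomialOrder.lex
  have hlt : ∀ a b : V, a < b ↔ σ b < σ a := by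
    intro a b
    show -σ a < -σ b ↔ _
    exact neg_lt_neg_iff
  have hdeg : ∀ u w, σ u < σ w → m.degree (fac s(u, w)) = Finsupp.single w 1 := by
    intro u w h
    rw [fac_mk, MonomialOrder.degree_add_eq_right_of_lt, MonomialOrder.degree_X]
    rw [MonomialOrder.degree_X, MonomialOrder.degree_X]
    rw [MonomialOrder.lex_lt_iff]
    rw [Finsupp.Lex.single_lt_iff]
    exact (hlt w u).2 h
  have hne : ∀ e ∈ edg A, fac e ≠ 0 := by
    intro e he
    induction e using Sym2.ind with
    | _ a b =>
      rw [mem_edg hA] at he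
      apply fac_ne_zero
      rintro rfl; exact he (hA.diag a)
  refine ⟨m.degree (PP A), ?_, ?_⟩
  · rw [← MvPolynomial.mem_support_iff]
    apply (m.degree_mem_support_iff _).2
    unfold PP
    exact Finset.prod_ne_zero_iff.2 hne
  · intro v hv
    rw [← hJ v hv, bd_eq_card]
    congr 1
    unfold PP
    rw [MonomialOrder.degree_prod hne, Finsupp.finsetSum_apply]
    apply edge_count hA hσ
    intro u w h
    rw [hdeg u w h, Finsupp.single_apply]

end Pool.Agent.W146.SD
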