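import Mathlib
import Pool.Agent.H796R3.AO.Defs

/-!
# Acyclic `T`-odd orientations: the min-max theorem and the good characterization (definitions)

Multigraphs `MGraph V` and acyclic `T`-odd orientations `HasAcyclicTOdd` are those of
`Pool.Agent.H796R3.AO.Defs`.
-/

set_option autoImplicit false

namespace Pool.Agent.W146.SD

open Pool.Agent.H796R3.AO

/-- All degrees of the simple graph `H` are even. -/
def EvenG {W : Type} (H : SimpleGraph W) : Prop := ∀ v, Even (H.neighborSet v).ncard

/-- The complete graph on the vertex set `S` (the other vertices are isolated). -/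
def cliqueOn {W : Type} (S : Set W) : SimpleGraph W where
  Adj u v := u ∈ S ∧ v ∈ S ∧ u ≠ v
  symm := ⟨fun _ _ h => ⟨h.2.1, h.1, h.2.2.symm⟩⟩
  loopless := ⟨fun _ h => h.2.2 rfl⟩

/-- `H` is a complete graph on an odd number of vertices, plus isolated vertices. -/
def IsOddClique {W : Type} (H : SimpleGraph W) : Prop :=
  ∃ S : Set W, Odd S.ncard ∧ H = cliqueOn S

/-- The cost of an even graph `H` with `s` non-isolated vertices and `m` edges: `(s - 1) / 2` if
`H` is a complete graph on an odd number of vertices, and otherwise `s - 2` or `s - 3`, whichever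
has the parity of `m`. -/
noncomputable def cost {W : Type} (H : SimpleGraph W) : ℕ :=
  open Classical in
  if IsOddClique H then (H.support.ncard - 1) / 2
  else H.support.ncard - 2 - (H.support.ncard + H.edgeSet.ncard) % 2

/-- `C` is a decomposition of `H` into even graphs modulo 2: all members of `C` are even graphs,
and `u`, `v` are adjacent in `H` iff they are adjacent in an odd number of members of `C`. -/
def IsDecomp {W : Type} (C : List (SimpleGraph W)) (H : SimpleGraph W) : Prop :=
  (∀ K ∈ C, EvenG K) ∧
    ∀ u v, H.Adj u v ↔ Odd (C.countP (fun K => @decide (K.Adj u v) (Classical.dec _)))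

/-- The number of vertices of `H` with an odd number of neighbours before them in the order of
`W` given by the injective function `σ`. -/
noncomputable def oddBack {W : Type} (H : SimpleGraph W) (σ : W → ℤ) : ℕ :=
  {v | Odd {w | H.Adj v w ∧ σ w < σ v}.ncard}.ncard

/-- The auxiliary graph of `(G, T)` on `V ∪ {s, t}` (`s = inr false`, `t = inr true`), before
symmetrisation: `u, v ∈ V` are adjacent iff they are joined by an odd number of edges of `G`;
`s` is adjacent to all nodes of `V \ T`; `t` is adjacent to the `v ∈ V` whose degree in `G` plus
`1` if `v ∉ T` is odd; and `s`, `t` are adjacent iff `|V \ T|` is odd. -/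
def auxRel {V : Type} [Fintype V] (G : MGraph V) (T : Set V) : V ⊕ Bool → V ⊕ Bool → Prop
  | .inl u, .inl v => Odd (G.m u v)
  | .inl u, .inr false => u ∉ T
  | .inl u, .inr true => ¬ (Odd (∑ w, G.m u w) ↔ u ∉ T)
  | .inr false, .inr true => Odd (Tᶜ.ncard)
  | _, _ => False

/-- The auxiliary graph of `(G, T)`. All its degrees are even. -/
def auxG {V : Type} [Fintype V] (G : MGraph V) (T : Set V) : SimpleGraph (V ⊕ Bool) :=
  SimpleGraph.fromRel (auxRel G T)

/-- Min-max theorem: for every finite even simple graph `H`, the maximum over all vertex orders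
of the number of vertices with an odd number of earlier neighbours equals the minimum total cost
of a decomposition of `H` into even graphs modulo 2; and a decomposition of minimum cost exists
that has at most that many members. -/
def MinMax : Prop :=
  ∀ (W : Type) [Fintype W] (H : SimpleGraph W), EvenG H →
    ∃ k : ℕ, (∃ σ : W → ℤ, Function.Injective σ ∧ oddBack H σ = k) ∧
      (∀ σ : W → ℤ, Function.Injective σ → oddBack H σ ≤ k) ∧
      (∃ C, IsDecomp C H ∧ C.length ≤ k ∧ (C.map cost).sum = k) ∧
      (∀ C, IsDecomp C H → k ≤ (C.map cost).sum)

/-- Good characterization: `(G, T)` has no acyclic `T`-odd orientation iff the auxiliary graph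
has a decomposition into fewer than `|V|` even graphs, of total cost less than `|V|`. -/
def GoodChar : Prop :=
  ∀ (V : Type) [Fintype V] (G : MGraph V) (T : Set V),
    ¬ HasAcyclicTOdd G T ↔
      ∃ C, IsDecomp C (auxG G T) ∧ C.length < Fintype.card V ∧
        (C.map cost).sum < Fintype.card V

end Pool.Agent.W146.SD
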