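import Pool.Agent.W146.SD.Red
import Pool.Agent.W146.SD.GC

/-! # The min-max theorem and the good characterization from strong duality -/

set_option autoImplicit false

namespace Pool.Agent.W146.SD

open Finset MvPolynomial Pool.Agent.W390.SD Pool.Agent.H796R3.AO

section conv

variable {W : Type}

/-- adjacency function of a simple graph -/
noncomputable def ofG (H : SimpleGraph W) : Gr W := fun u v =>
  open Classical in if H.Adj u v then 1 else 0

theorem ofG_ne {H : SimpleGraph W} {u v : W} : ofG H u v ≠ 0 ↔ H.Adj u v := by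
  classical
  unfold ofG
  by_cases h : H.Adj u v
  · rw [if_pos h]; exact ⟨fun _ => h, fun _ => one_ne_zero⟩
  · rw [if_neg h]; exact ⟨fun h' => absurd rfl h', fun h' => absurd h' h⟩

theorem ofG_isGr (H : SimpleGraph W) : IsGr (ofG H) := by
  constructor
  · intro u v
    unfold ofG
    rw [H.adj_comm]
  · intro v
    unfold ofG
    rw [if_neg (H.irrefl)]

theorem z2_ext {a b : ZMod 2} (h : a ≠ 0 ↔ b ≠ 0) : a = b := by
  revert h; revert a b; decide

theorem gr_surj {A : Gr W} (hA : IsGr A) : ∃ H : SimpleGraph W, ofG H = A := by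
  refine ⟨{ Adj := fun u v => A u v ≠ 0, symm := ⟨fun u v h => by rw [hA.symm]; exact h⟩,
            loopless := ⟨fun v h => h (hA.diag v)⟩ }, ?_⟩
  funext u v
  apply z2_ext
  rw [ofG_ne]

theorem sum_ofG [Fintype W] (H : SimpleGraph W) (v : W) (s : Finset W) :
    ∑ u ∈ s, ofG H v u = (((s.filter fun u => ofG H v u ≠ 0).card : ℕ) : ZMod 2) := by
  classical
  rw [Finset.card_filter]
  push_cast
  apply Finset.sum_congr rfl
  intro u _
  have : ∀ c : ZMod 2, c = if c ≠ 0 then 1 else 0 := by decide
  exact this _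

theorem cast_eq_zero_iff (n : ℕ) : ((n : ℕ) : ZMod 2) = 0 ↔ Even n :=
  ZMod.natCast_eq_zero_iff_even

theorem evenG_iff [Fintype W] (H : SimpleGraph W) : EvenG H ↔ IsEv (ofG H) := by
  classical
  have h1 : ∀ v, (∑ u, ofG H v u = 0) ↔ Even (H.neighborSet v).ncard := by
    intro v
    rw [sum_ofG, cast_eq_zero_iff]
    have : (H.neighborSet v).ncard = (univ.filter fun u => ofG H v u ≠ 0).card := by
      rw [← Set.ncard_coe_finset]
      congr 1
      ext u
      rw [Finset.coe_filter]
      simp only [mem_univ, true_and, Set.mem_setOf_eq, SimpleGraph.mem_neighborSet, ofG_ne]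
    rw [this]
  constructor
  · intro h
    exact ⟨(ofG_isGr H).symm, (ofG_isGr H).diag, fun v => (h1 v).2 (h v)⟩
  · intro h v
    exact (h1 v).1 (h.even v)

theorem supp_ofG [Fintype W] (H : SimpleGraph W) : (supp (ofG H)).card = H.support.ncard := by
  rw [← Set.ncard_coe_finset]
  congr 1
  ext v
  rw [Finset.mem_coe, mem_supp, SimpleGraph.mem_support]
  simp only [ofG_ne]

theorem edg_ofG [Fintype W] [DecidableEq W] (H : SimpleGraph W) :
    (edg (ofG H)).card = H.edgeSet.ncard := by
  rw [← Set.ncard_coe_finset]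
  congr 1
  ext e
  induction e using Sym2.ind with
  | _ a b =>
    rw [Finset.mem_coe, mem_edg (ofG_isGr H), SimpleGraph.mem_edgeSet, ofG_ne]

theorem ofG_clique [Fintype W] [DecidableEq W] (S : Set W) (S' : Finset W)
    (h : (S' : Set W) = S) : ofG (cliqueOn S) = K S' := by
  classical
  funext u v
  unfold ofG K cliqueOn
  subst h
  by_cases h : u ∈ S' ∧ v ∈ S' ∧ u ≠ v
  · rw [if_pos h, if_pos]
    exact ⟨by simpa using h.1, by simpa using h.2.1, h.2.2⟩
  · rw [if_neg h, if_neg]
    rintro ⟨h1, h2, h3⟩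
    exact h ⟨by simpa using h1, by simpa using h2, h3⟩

theorem oddBack_eq [Fintype W] (H : SimpleGraph W) (σ : W → ℤ) :
    oddBack H σ = (univ.filter fun v => bd (ofG H) σ v = 1).card := by
  classical
  unfold oddBack
  rw [← Set.ncard_coe_finset]
  congr 1
  ext v
  rw [Finset.coe_filter, Set.mem_setOf_eq, Set.mem_setOf_eq, bd_eq_card, cast_eq_one_iff]
  have : {w | H.Adj v w ∧ σ w < σ v}.ncard =
      (univ.filter fun w => σ w < σ v ∧ ofG H v w ≠ 0).card := by
    rw [← Set.ncard_coe_finset]
    congr 1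
    ext w
    rw [Finset.coe_filter, Set.mem_setOf_eq, Set.mem_setOf_eq, ofG_ne]
    exact ⟨fun h => ⟨mem_univ _, h.2, h.1⟩, fun h => ⟨h.2.2, h.2.1⟩⟩
  rw [this]
  exact ⟨fun h => ⟨mem_univ _, h⟩, fun h => h.2⟩

theorem list_sum_apply (L : List (Gr W)) (u v : W) :
    L.sum u v = (L.map (fun A => A u v)).sum := by
  induction L with
  | nil => rfl
  | cons A L ih =>
    rw [List.sum_cons, List.map_cons, List.sum_cons, Pi.add_apply, Pi.add_apply, ih]

theorem countP_cast (C : List (SimpleGraph W)) (u v : W) :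
    ((C.countP (fun K => @decide (K.Adj u v) (Classical.dec _)) : ℕ) : ZMod 2) =
      (C.map ofG).sum u v := by
  classical
  rw [list_sum_apply, List.map_map]
  induction C with
  | nil => simp
  | cons K C ih =>
    rw [List.countP_cons, List.map_cons, List.sum_cons, Nat.cast_add, ih, add_comm]
    congr 1
    show _ = ofG K u v
    unfold ofG
    by_cases h : K.Adj u v
    · simp [h]
    · simp [h]

theorem isDecomp_iff [Fintype W] (C : List (SimpleGraph W)) (H : SimpleGraph W) :
    IsDecomp C H ↔ (∀ K ∈ C, IsEv (ofG K)) ∧ (C.map ofG).sum = ofG H := by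
  unfold IsDecomp
  apply and_congr
  · apply forall_congr'; intro K
    rw [evenG_iff]
  · constructor
    · intro h
      funext u v
      rw [← countP_cast]
      apply z2_ext
      rw [ofG_ne, h u v, ← cast_eq_one_iff]
      generalize ((C.countP (fun K => @decide (K.Adj u v) (Classical.dec _)) : ℕ) : ZMod 2) = c
      revert c; decide
    · intro h u v
      rw [← ofG_ne, ← h, ← countP_cast, ← cast_eq_one_iff]
      generalize ((C.countP (fun K => @decide (K.Adj u v) (Classical.dec _)) : ℕ) : ZMod 2) = c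
      revert c; decide

end conv

theorem nu_zero {W : Type} [Fintype W] [DecidableEq W] : nu (0 : Gr W) = 0 := by
  unfold nu
  have : Lap (0 : Gr W) = 0 := by
    funext u v
    unfold Lap
    simp
  rw [this, Matrix.rank_zero]

theorem K_supp {W : Type} [Fintype W] [DecidableEq W] {S : Finset W} (h : 2 ≤ S.card) :
    supp (K S) = S := by
  ext v
  rw [mem_supp]
  constructor
  · rintro ⟨u, hu⟩
    by_contra hv
    apply hu
    unfold K
    rw [if_neg]
    rintro ⟨h1, _⟩; exact hv h1
  · intro hv
    obtain ⟨u, hu, huv⟩ := Finset.exists_mem_ne (by omega : 1 < S.card) v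
    refine ⟨u, ?_⟩
    unfold K
    rw [if_pos ⟨hv, hu, huv.symm⟩]
    exact one_ne_zero

theorem K_small {W : Type} [Fintype W] [DecidableEq W] {S : Finset W} (h : S.card ≤ 1) :
    K S = 0 := by
  funext u v
  unfold K
  rw [if_neg]
  · rfl
  rintro ⟨h1, h2, h3⟩
  exact h3 (Finset.card_le_one.1 h u h1 v h2)

/-- cost of an odd clique -/
theorem cost_clique (hN : S_N) {W : Type} [Fintype W] [DecidableEq W] {H : SimpleGraph W}
    (h : IsOddClique H) : cost H = nu (ofG H) := by
  classical
  unfold cost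
  rw [if_pos h]
  obtain ⟨S, hS, rfl⟩ := h
  have hfin : S.Finite := Set.toFinite S
  have hc : ((hfin.toFinset : Finset W) : Set W) = S := hfin.coe_toFinset
  have hcard : hfin.toFinset.card = S.ncard := by
    rw [← Set.ncard_coe_finset, hc]
  rw [← supp_ofG, ofG_clique S hfin.toFinset hc, WD1 hN _ _ (by rw [hcard]; exact hS)]
  rcases Nat.lt_or_ge hfin.toFinset.card 2 with h1 | h1
  · rw [K_small (by omega)]
    have : supp (0 : Gr W) = ∅ := by
      apply Finset.eq_empty_of_forall_notMem
      intro v hv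
      obtain ⟨u, hu⟩ := mem_supp.1 hv
      exact hu rfl
    rw [this, card_empty]
    omega
  · rw [K_supp h1]

theorem nu_le_cost (hN : S_N) {W : Type} [Fintype W] [DecidableEq W] {H : SimpleGraph W}
    (hE : IsEv (ofG H)) : nu (ofG H) ≤ cost H := by
  classical
  by_cases h : IsOddClique H
  · rw [cost_clique hN h]
  · unfold cost
    rw [if_neg h]
    by_cases h0 : ofG H = 0
    · rw [h0, nu_zero]; exact Nat.zero_le _
    · have h1 := WD2 hN _ _ hE h0
      have h2 := WD3 hN _ _ (ofG_isGr H)
      rw [supp_ofG] at h1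
      rw [edg_ofG] at h2
      omega

theorem cost_basic (hN : S_N) {W : Type} [Fintype W] [DecidableEq W] {H : SimpleGraph W}
    (hE : IsEv (ofG H)) (h0 : ofG H ≠ 0) (hB : Basic (ofG H)) : cost H = nu (ofG H) := by
  classical
  by_cases h : IsOddClique H
  · exact cost_clique hN h
  · rcases hB with ⟨S, hS, _, hK⟩ | hB
    · exfalso
      apply h
      refine ⟨(S : Set W), by rw [Set.ncard_coe_finset]; exact hS, ?_⟩
      ext u v
      rw [← ofG_ne, ← ofG_ne, hK, ofG_clique (S : Set W) S rfl]
    · unfold cost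
      rw [if_neg h]
      have h1 := WD2 hN _ _ hE h0
      have h2 := WD3 hN _ _ (ofG_isGr H)
      rw [supp_ofG] at h1 hB
      rw [edg_ofG] at h2
      omega

theorem nu_pos (hN : S_N) {W : Type} [Fintype W] [DecidableEq W] {A : Gr W}
    (hA : IsGr A) (h0 : A ≠ 0) : 0 < nu A := by
  classical
  have hne : ∃ u v, A u v ≠ 0 := by
    by_contra hno
    push Not at hno
    exact h0 (funext fun u => funext fun v => hno u v)
  obtain ⟨u, v, huv⟩ := hne
  have huv' : u ≠ v := by rintro rfl; exact huv (hA.diag u)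
  -- order: u first, v second
  obtain ⟨e⟩ : Nonempty (W ≃ Fin (Fintype.card W)) := ⟨Fintype.equivFin W⟩
  let σ : W → ℤ := fun w => if w = u then -2 else if w = v then -1 else (e w : ℕ)
  have hσu : σ u = -2 := by simp only [σ]; rw [if_pos trivial]
  have hσv : σ v = -1 := by simp only [σ]; rw [if_neg huv'.symm, if_pos trivial]
  have hσw : ∀ w, w ≠ u → w ≠ v → σ w = ((e w : ℕ) : ℤ) := by
    intro w h1 h2
    simp only [σ]; rw [if_neg h1, if_neg h2]
  have hσ : Function.Injective σ := by
    intro a b hab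
    by_cases ha : a = u
    · subst ha
      by_cases hb : b = a
      · exact hb.symm
      · by_cases hb' : b = v
        · subst hb'; omega
        · have := hσw b hb hb'; omega
    · by_cases ha' : a = v
      · subst ha'
        by_cases hb : b = u
        · subst hb; omega
        · by_cases hb' : b = a
          · exact hb'.symm
          · have := hσw b hb hb'; omega
      · have h1 := hσw a ha ha'
        by_cases hb : b = u
        · subst hb; omega
        · by_cases hb' : b = v
          · subst hb'; omega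
          · have h2 := hσw b hb hb'
            have h3 : (e a : ℕ) = (e b : ℕ) := by omega
            exact e.injective (Fin.ext h3)
  refine lt_of_lt_of_le ?_ ((hN W A hA).1 σ hσ)
  apply Finset.card_pos.2
  refine ⟨v, mem_filter.2 ⟨mem_univ _, ?_⟩⟩
  rw [bd_eq_card]
  have : (univ.filter fun w => σ w < σ v ∧ A v w ≠ 0) = {u} := by
    ext w
    rw [mem_filter, mem_singleton]
    constructor
    · rintro ⟨_, h1, _⟩
      by_contra hw
      by_cases hw' : w = v
      · subst hw'; exact lt_irrefl _ h1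
      · have := hσw w hw hw'; omega
    · rintro rfl
      refine ⟨mem_univ _, by omega, ?_⟩
      rw [hA.symm]; exact huv
  rw [this, card_singleton]
  rfl

theorem len_le_sum {α : Type} (f : α → ℕ) (L : List α) (h : ∀ a ∈ L, 0 < f a) :
    L.length ≤ (L.map f).sum := by
  induction L with
  | nil => simp
  | cons a L ih =>
    rw [List.length_cons, List.map_cons, List.sum_cons]
    have h1 := h a List.mem_cons_self
    have h2 := ih fun b hb => h b (List.mem_cons_of_mem _ hb)
    omega

theorem nu_sum_le {W : Type} [Fintype W] [DecidableEq W] (L : List (Gr W)) :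
    nu L.sum ≤ (L.map nu).sum := by
  induction L with
  | nil => rw [List.sum_nil, nu_zero]; exact Nat.zero_le _
  | cons A L ih =>
    rw [List.sum_cons, List.map_cons, List.sum_cons]
    exact le_trans (WD4 _ _ _) (Nat.add_le_add_left ih _)

/-- lower bound -/
theorem decomp_lower (hN : S_N) {W : Type} [Fintype W] [DecidableEq W] {H : SimpleGraph W}
    {C : List (SimpleGraph W)} (hC : IsDecomp C H) : nu (ofG H) ≤ (C.map cost).sum := by
  rw [isDecomp_iff] at hC
  rw [← hC.2]
  refine le_trans (nu_sum_le _) ?_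
  rw [List.map_map]
  apply List.sum_le_sum
  intro K hK
  exact nu_le_cost hN (hC.1 K hK)

/-- optimal decomposition -/
theorem decomp_exists (hN : S_N) (hSD : S_SD) {W : Type} [Fintype W] [DecidableEq W]
    {H : SimpleGraph W} (hE : IsEv (ofG H)) :
    ∃ C, IsDecomp C H ∧ C.length ≤ nu (ofG H) ∧ (C.map cost).sum = nu (ofG H) := by
  obtain ⟨L, hL, hsum, hnu⟩ := hSD W (ofG H) hE
  have hC : ∃ C : List (SimpleGraph W), C.map ofG = L := by
    have : ∀ L : List (Gr W), (∀ B ∈ L, IsEv B ∧ B ≠ 0 ∧ Basic B) →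
        ∃ C : List (SimpleGraph W), C.map ofG = L := by
      intro L
      induction L with
      | nil => intro _; exact ⟨[], rfl⟩
      | cons B L ih =>
        intro h
        obtain ⟨C, hC⟩ := ih fun B' hB' => h B' (List.mem_cons_of_mem _ hB')
        have hB := (h B List.mem_cons_self).1
        obtain ⟨K, hK⟩ := gr_surj (A := B) ⟨hB.symm, hB.diag⟩
        exact ⟨K :: C, by rw [List.map_cons, hK, hC]⟩
    exact this L hL
  obtain ⟨C, rfl⟩ := hC
  have hcost : ∀ K ∈ C, cost K = nu (ofG K) := by
    intro K hK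
    have := hL (ofG K) (List.mem_map.2 ⟨K, hK, rfl⟩)
    exact cost_basic hN this.1 this.2.1 this.2.2
  have hpos : ∀ K ∈ C, 0 < nu (ofG K) := by
    intro K hK
    have := hL (ofG K) (List.mem_map.2 ⟨K, hK, rfl⟩)
    exact nu_pos hN (ofG_isGr K) this.2.1
  rw [List.map_map] at hnu
  refine ⟨C, ?_, ?_, ?_⟩
  · rw [isDecomp_iff]
    exact ⟨fun K hK => (hL (ofG K) (List.mem_map.2 ⟨K, hK, rfl⟩)).1, hsum⟩
  · rw [← hnu]
    exact len_le_sum _ C hpos
  · rw [← hnu]
    congr 1
    apply List.map_congr_left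
    intro K hK
    exact hcost K hK

theorem minMax (h2 : S_A2) (h3 : S_A3) (hSD : S_SD) : MinMax := by
  classical
  intro W _ H hH
  have hN := N h2 h3
  have hE := (evenG_iff H).1 hH
  obtain ⟨hlow, σ, hσ, hmax⟩ := hN W (ofG H) (ofG_isGr H)
  refine ⟨nu (ofG H), ⟨σ, hσ, ?_⟩, ?_, ?_, ?_⟩
  · rw [oddBack_eq]; exact hmax
  · intro τ hτ; rw [oddBack_eq]; exact hlow τ hτ
  · exact decomp_exists hN hSD hE
  · intro C hC; exact decomp_lower hN hC

theorem ofG_aux {V : Type} [Fintype V] (G : MGraph V) (T : Set V) :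
    ofG (auxG G T) = aux G T := by
  classical
  have key : ∀ x y, x ≠ y → ((auxRel G T x y ∨ auxRel G T y x) ↔ aux G T x y ≠ 0) →
      ofG (auxG G T) x y = aux G T x y := by
    intro x y hxy h
    apply z2_ext
    rw [ofG_ne, ← h]
    unfold auxG
    rw [SimpleGraph.fromRel_adj]
    exact ⟨fun h => h.2, fun h => ⟨hxy, h⟩⟩
  have hne1 : ∀ c : ZMod 2, c ≠ 0 ↔ c = 1 := by decide
  have hdiag : ∀ x, ofG (auxG G T) x x = aux G T x x := by
    intro x
    rw [(ofG_isGr _).diag, (aux_isEv G T).diag]
  have hco : ∀ u : V, u ∉ T ↔ co T u ≠ 0 := by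
    intro u
    unfold co
    by_cases h : u ∈ T
    · rw [if_pos h]; exact ⟨fun h' => absurd h h', fun h' => absurd rfl h'⟩
    · rw [if_neg h]; exact ⟨fun _ => one_ne_zero, fun _ => h⟩
  have hdeg : ∀ u : V, ¬ (Odd (∑ w, G.m u w) ↔ u ∉ T) ↔
      (∑ w, (G.m u w : ZMod 2)) + co T u ≠ 0 := by
    intro u
    have e : (∑ w, (G.m u w : ZMod 2)) = ((∑ w, G.m u w : ℕ) : ZMod 2) := by push_cast; rfl
    rw [e, hco u, ← cast_eq_one_iff]
    generalize ((∑ w, G.m u w : ℕ) : ZMod 2) = a
    generalize co T u = b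
    revert a b; decide
  have hst : Odd (Tᶜ.ncard) ↔ ∑ u, co T u ≠ 0 := by
    have : ∑ u, co T u = ((Tᶜ.ncard : ℕ) : ZMod 2) := by
      have h1 : Tᶜ.ncard = (univ.filter fun u => u ∉ T).card := by
        rw [← Set.ncard_coe_finset]
        congr 1
        ext u
        simp
      rw [h1, Finset.card_filter]
      push_cast
      apply Finset.sum_congr rfl
      intro u _
      unfold co
      by_cases h : u ∈ T
      · rw [if_pos h, if_neg (not_not.2 h)]
      · rw [if_neg h, if_pos h]
    rw [this, ← cast_eq_one_iff, hne1]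
  funext x y
  rcases x with u | (_ | _) <;> rcases y with v | (_ | _)
  · by_cases huv : u = v
    · subst huv; exact hdiag _
    · apply key _ _ (fun h => huv (Sum.inl_injective h))
      show (Odd (G.m u v) ∨ Odd (G.m v u)) ↔ (G.m u v : ZMod 2) ≠ 0
      rw [G.symm v u, or_self, ← cast_eq_one_iff, hne1]
  · apply key _ _ (by simp)
    show (u ∉ T ∨ False) ↔ co T u ≠ 0
    rw [or_false]; exact hco u
  · apply key _ _ (by simp)
    show (¬ (Odd (∑ w, G.m u w) ↔ u ∉ T) ∨ False) ↔ (∑ w, (G.m u w : ZMod 2)) + co T u ≠ 0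
    rw [or_false]; exact hdeg u
  · apply key _ _ (by simp)
    show (False ∨ v ∉ T) ↔ co T v ≠ 0
    rw [false_or]; exact hco v
  · exact hdiag _
  · apply key _ _ (by simp)
    show (Odd (Tᶜ.ncard) ∨ False) ↔ ∑ u, co T u ≠ 0
    rw [or_false]; exact hst
  · apply key _ _ (by simp)
    show (False ∨ ¬ (Odd (∑ w, G.m v w) ↔ v ∉ T)) ↔ (∑ w, (G.m v w : ZMod 2)) + co T v ≠ 0
    rw [false_or]; exact hdeg v
  · apply key _ _ (by simp)
    show (False ∨ Odd (Tᶜ.ncard)) ↔ ∑ u, co T u ≠ 0
    rw [false_or]; exact hst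
  · exact hdiag _

theorem goodChar (h2 : S_A2) (h3 : S_A3) (hSD : S_SD) : GoodChar := by
  classical
  intro V _ G T
  have hN := N h2 h3
  have hE : IsEv (ofG (auxG G T)) := by rw [ofG_aux]; exact aux_isEv G T
  rw [order_iff_nu h2 h3 G T, ← ofG_aux]
  have hle : nu (ofG (auxG G T)) ≤ Fintype.card V := by
    by_cases h0 : ofG (auxG G T) = 0
    · rw [h0, nu_zero]; exact Nat.zero_le _
    · have h1 := WD2 hN _ _ hE h0
      have h2 := Finset.card_le_univ (supp (ofG (auxG G T)))
      rw [Fintype.card_sum, Fintype.card_bool] at h2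
      omega
  constructor
  · intro hne
    obtain ⟨C, hC, hlen, hcost⟩ := decomp_exists hN hSD hE
    exact ⟨C, hC, by omega, by omega⟩
  · rintro ⟨C, hC, -, hcost⟩ h
    have := decomp_lower hN hC
    omega

end Pool.Agent.W146.SD
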