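import Pool.Agent.W146.SD.Fin
import Pool.Agent.W155.SD.A2
import Pool.Agent.W155.SD.A3

/-! # MP_7f2998_co: everything from strong duality for indecomposable even graphs -/

set_option autoImplicit false

namespace Pool.Agent.W146.SD

open Finset MvPolynomial Pool.Agent.W390.SD Pool.Agent.H796R3.AO

/-- strong duality in the form of `W390.SD.Defs` -/
def SDall : Prop := ∀ (V : Type) [Fintype V] [DecidableEq V] (n : ℕ), SDn V n

theorem isEv_add {V : Type} [Fintype V] {A B : Gr V} (hA : IsEv A) (hB : IsEv B) :
    IsEv (A + B) := by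
  constructor
  · intro u v
    rw [Pi.add_apply, Pi.add_apply, Pi.add_apply, Pi.add_apply, hA.symm, hB.symm]
  · intro v
    rw [Pi.add_apply, Pi.add_apply, hA.diag, hB.diag, add_zero]
  · intro v
    have : ∀ u, (A + B) v u = A v u + B v u := fun u => rfl
    rw [Finset.sum_congr rfl (fun u _ => this u), Finset.sum_add_distrib, hA.even, hB.even,
      add_zero]

theorem gr_add_self {V : Type} (A : Gr V) : A + A = 0 := by
  funext u v
  exact z2_add _

theorem sd_of (hN : S_N) (h : SDall) : S_SD := by
  intro V _ _
  have key : ∀ n : ℕ, ∀ A : Gr V, IsEv A → nu A ≤ n →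
      ∃ L : List (Gr V), (∀ B ∈ L, IsEv B ∧ B ≠ 0 ∧ Basic B) ∧ L.sum = A ∧
        (L.map nu).sum = nu A := by
    intro n
    induction n with
    | zero =>
      intro A hA hn
      by_cases h0 : A = 0
      · exact ⟨[], by simp, by rw [h0]; rfl, by rw [h0, nu_zero]; rfl⟩
      · have := nu_pos hN ⟨hA.symm, hA.diag⟩ h0
        omega
    | succ n ih =>
      intro A hA hn
      by_cases h0 : A = 0
      · exact ⟨[], by simp, by rw [h0]; rfl, by rw [h0, nu_zero]; rfl⟩
      by_cases hI : Indec A
      · refine ⟨[A], ?_, by simp, by simp⟩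
        intro B hB
        rw [List.mem_singleton] at hB
        subst hB
        exact ⟨hA, h0, h V _ B hI le_rfl⟩
      · have hex : ∃ H, Tight H A ∧ H ≠ 0 ∧ H ≠ A := by
          by_contra hno
          push Not at hno
          apply hI
          refine ⟨hA, h0, ?_⟩
          intro H hH
          by_cases hH0 : H = 0
          · exact Or.inl hH0
          · exact Or.inr (hno H hH hH0)
        obtain ⟨H, ⟨hHe, hHt⟩, hH0, hHA⟩ := hex
        have hS : IsEv (A + H) := isEv_add hA hHe
        have hS0 : A + H ≠ 0 := by
          intro hz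
          apply hHA
          have : H = A + H + A := by
            rw [add_comm A H, add_assoc, gr_add_self, add_zero]
          rw [this, hz, zero_add]
        have p1 := nu_pos hN ⟨hHe.symm, hHe.diag⟩ hH0
        have p2 := nu_pos hN ⟨hS.symm, hS.diag⟩ hS0
        obtain ⟨L1, a1, a2, a3⟩ := ih H hHe (by omega)
        obtain ⟨L2, b1, b2, b3⟩ := ih (A + H) hS (by omega)
        refine ⟨L1 ++ L2, ?_, ?_, ?_⟩
        · intro B hB
          rcases List.mem_append.1 hB with hB | hB
          · exact a1 B hB
          · exact b1 B hB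
        · rw [List.sum_append, a2, b2, add_comm A H, ← add_assoc, gr_add_self, zero_add]
        · rw [List.map_append, List.sum_append, a3, b3, hHt]
  intro A hA
  exact key (nu A) A hA le_rfl

/-- The min-max theorem and the good characterization, from strong duality. -/
theorem main (h : SDall) : MinMax ∧ GoodChar := by
  have h2 : S_A2 := Pool.Agent.W155.SD.A2
  have h3 : S_A3 := Pool.Agent.W155.SD.A3
  have hSD : S_SD := sd_of (N h2 h3) h
  exact ⟨minMax h2 h3 hSD, goodChar h2 h3 hSD⟩

end Pool.Agent.W146.SD
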