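import Pool.Agent.W146.SD.A1

/-! # The rank of the Laplacian and odd back-degrees -/

set_option autoImplicit false

namespace Pool.Agent.W146.SD

open Finset MvPolynomial Pool.Agent.W390.SD

/-- principal minor theorem for symmetric matrices -/
theorem exists_minor {n K : Type} [Fintype n] [DecidableEq n] [Field K] (M : Matrix n n K)
    (hM : ∀ i j, M i j = M j i) :
    ∃ J : Finset n, J.card = M.rank ∧
      (M.submatrix (Subtype.val : J → n) (Subtype.val : J → n)).det ≠ 0 := by
  classical
  obtain ⟨b, -, -, hsp, hli⟩ := exists_linearIndepOn_extension (K := K) (v := M.row) (s := ∅)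
    (t := Set.univ) (linearIndepOn_empty K _) (Set.subset_univ _)
  rw [Set.image_univ] at hsp
  have hspan : Submodule.span K (Set.range M.row) = Submodule.span K (M.row '' b) := by
    apply le_antisymm
    · exact Submodule.span_le.2 hsp
    · apply Submodule.span_mono
      rintro _ ⟨i, _, rfl⟩
      exact ⟨i, rfl⟩
  refine ⟨b.toFinset, ?_, ?_⟩
  · rw [M.rank_eq_finrank_span_row, hspan]
    have h1 : M.row '' b = Set.range (fun x : b => M.row x) := by
      rw [Set.image_eq_range]
    rw [h1, finrank_span_eq_card hli, Set.toFinset_card]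
  · intro hdet
    obtain ⟨y, hy0, hy⟩ := Matrix.exists_mulVec_eq_zero_iff.2 hdet
    apply hy0
    let z : n → K := fun i => if h : i ∈ b.toFinset then y ⟨i, h⟩ else 0
    have hz : ∀ f : n → K, ∑ i, f i * z i = ∑ j : b.toFinset, f j * y j := by
      intro f
      rw [← Finset.sum_subset (Finset.subset_univ b.toFinset)]
      · rw [← Finset.sum_coe_sort b.toFinset]
        apply Finset.sum_congr rfl
        intro j _
        simp only [z]
        rw [dif_pos j.2]
      · intro i _ hi
        simp only [z]
        rw [dif_neg hi, mul_zero]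
    let φ : (n → K) →ₗ[K] K :=
      { toFun := fun r => ∑ i, r i * z i
        map_add' := fun r s => by
          rw [← Finset.sum_add_distrib]
          apply Finset.sum_congr rfl
          intro i _
          rw [Pi.add_apply]; ring
        map_smul' := fun c r => by
          rw [RingHom.id_apply, smul_eq_mul, Finset.mul_sum]
          apply Finset.sum_congr rfl
          intro i _
          rw [Pi.smul_apply, smul_eq_mul]; ring }
    have hφ : Submodule.span K (Set.range M.row) ≤ LinearMap.ker φ := by
      rw [hspan, Submodule.span_le]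
      rintro _ ⟨j, hj, rfl⟩
      show φ (M.row j) = 0
      show ∑ i, M.row j i * z i = 0
      rw [hz]
      have := congrFun hy ⟨j, by simpa using hj⟩
      simpa [Matrix.mulVec, dotProduct] using this
    have hall : ∀ i, ∑ j : b.toFinset, M i j * y j = 0 := by
      intro i
      have : M.row i ∈ LinearMap.ker φ := hφ (Submodule.subset_span ⟨i, rfl⟩)
      have h2 : ∑ k, M.row i k * z k = 0 := this
      rw [hz] at h2
      exact h2
    have hli' : LinearIndependent K (fun j : b.toFinset => M.row j) := by
      have e : b.toFinset ≃ b := Equiv.subtypeEquivRight (fun x => by simp)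
      have : (fun j : b.toFinset => M.row j) =
          (fun x : b => M.row x) ∘ (Equiv.subtypeEquivRight (fun x => by simp) : b.toFinset ≃ b) := by
        funext j; rfl
      rw [this]
      exact hli.comp _ (Equiv.injective _)
    have := Fintype.linearIndependent_iff.1 hli' y (by
      funext i
      rw [Finset.sum_apply, Pi.zero_apply]
      rw [← hall i]
      apply Finset.sum_congr rfl
      intro j _
      rw [Pi.smul_apply, smul_eq_mul, mul_comm]
      show M j i * y j = _
      rw [hM])
    funext j
    exact this j

theorem Lap_symm {V : Type} [Fintype V] [DecidableEq V] {A : Gr V} (hA : IsGr A) (u v : V) :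
    Lap A u v = Lap A v u := by
  unfold Lap
  by_cases h : u = v
  · subst h; rfl
  · rw [if_neg h, if_neg (Ne.symm h), hA.symm u v, add_comm]

theorem minor_iff (h3 : S_A3) {V : Type} [Fintype V] [DecidableEq V] {A : Gr V} (hA : IsGr A)
    (J : Finset V) :
    PJ A J ≠ 0 ↔ ((Lap A).submatrix (Subtype.val : J → V) (Subtype.val : J → V)).det ≠ 0 := by
  have h := h3 V A hA J
  have hinj : Function.Injective (algebraMap (R V) (F V)) := IsFractionRing.injective _ _
  have hPP : PP A ≠ 0 := by
    unfold PP
    apply Finset.prod_ne_zero_iff.2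
    intro e he
    induction e using Sym2.ind with
    | _ a b =>
      rw [mem_edg hA] at he
      apply fac_ne_zero
      rintro rfl; exact he (hA.diag a)
  have hPP' : algebraMap (R V) (F V) (PP A) ≠ 0 := by
    rw [Ne, map_eq_zero_iff _ hinj]; exact hPP
  constructor
  · intro h1 h2
    rw [h2, zero_mul] at h
    exact h1 ((map_eq_zero_iff _ hinj).1 (pow_eq_zero_iff (two_ne_zero)|>.1 h))
  · intro h1 h2
    rw [h2, map_zero, zero_pow two_ne_zero] at h
    exact mul_ne_zero h1 (pow_ne_zero 2 hPP') h.symm

theorem N (h2 : S_A2) (h3 : S_A3) : S_N := by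
  intro V _ _ A hA
  have low : ∀ σ : V → ℤ, Function.Injective σ →
      (univ.filter fun v => bd A σ v = 1).card ≤ nu A := by
    intro σ hσ
    have h := A1 V A hA σ hσ (univ.filter fun v => bd A σ v = 1) (by
      intro v hv; exact (mem_filter.1 hv).2)
    have hd := (minor_iff h3 hA _).1 h
    have hr := Matrix.rank_of_det_ne_zero hd
    rw [Fintype.card_coe] at hr
    rw [← hr]
    exact Matrix.rank_submatrix_le _ _ _
  refine ⟨low, ?_⟩
  obtain ⟨J, hJ, hdet⟩ := exists_minor (Lap A) (Lap_symm hA)
  obtain ⟨σ, hσ, hodd⟩ := h2 V A hA J ((minor_iff h3 hA J).2 hdet)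
  refine ⟨σ, hσ, le_antisymm (low σ hσ) ?_⟩
  unfold nu
  rw [← hJ]
  apply Finset.card_le_card
  intro v hv
  exact mem_filter.2 ⟨mem_univ v, hodd v hv⟩

end Pool.Agent.W146.SD
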