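import Pool.Agent.W146.SD.WD

/-! # Acyclic `T`-odd orientations and the auxiliary even graph -/

set_option autoImplicit false

namespace Pool.Agent.W146.SD

open Finset MvPolynomial Pool.Agent.W390.SD Pool.Agent.H796R3.AO

/-- `1` outside `T`, `0` in `T` -/
noncomputable def co {V : Type} (T : Set V) (v : V) : ZMod 2 :=
  by classical exact if v ∈ T then 0 else 1

/-- The auxiliary even graph on `V ∪ {s, t}`, `s = inr false`, `t = inr true`. -/
noncomputable def aux {V : Type} [Fintype V] (G : MGraph V) (T : Set V) : Gr (V ⊕ Bool)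
  | .inl u, .inl v => (G.m u v : ZMod 2)
  | .inl u, .inr false => co T u
  | .inr false, .inl u => co T u
  | .inl u, .inr true => (∑ w, (G.m u w : ZMod 2)) + co T u
  | .inr true, .inl u => (∑ w, (G.m u w : ZMod 2)) + co T u
  | .inr false, .inr true => ∑ u, co T u
  | .inr true, .inr false => ∑ u, co T u
  | .inr false, .inr false => 0
  | .inr true, .inr true => 0

theorem z2_add (a : ZMod 2) : a + a = 0 := by revert a; decide

theorem sum_symm_zero {V : Type} [Fintype V] (f : V → V → ZMod 2) (hs : ∀ u v, f u v = f v u)
    (hd : ∀ v, f v v = 0) : ∑ u, ∑ v, f u v = 0 := by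
  classical
  rw [← Finset.sum_product', Finset.univ_product_univ]
  apply Finset.sum_involution (fun p _ => (p.2, p.1))
  · intro p _
    rw [hs p.2 p.1]; exact z2_add _
  · intro p _ hp h
    apply hp
    have : p.2 = p.1 := congrArg Prod.fst h
    rw [this]; exact hd _
  · intro p _; exact mem_univ _
  · intro p _; rfl

theorem aux_isEv {V : Type} [Fintype V] (G : MGraph V) (T : Set V) : IsEv (aux G T) := by
  constructor
  · rintro (u | (_ | _)) (v | (_ | _)) <;> try rfl
    show (G.m u v : ZMod 2) = (G.m v u : ZMod 2)
    rw [G.symm]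
  · rintro (u | (_ | _)) <;> try rfl
    show (G.m u u : ZMod 2) = 0
    rw [G.loopless]; rfl
  · rintro (u | (_ | _))
    · rw [Fintype.sum_sum_type, Fintype.sum_bool]
      show (∑ w, (G.m u w : ZMod 2)) + (((∑ w, (G.m u w : ZMod 2)) + co T u) + co T u) = 0
      rw [add_assoc, z2_add, add_zero, z2_add]
    · rw [Fintype.sum_sum_type, Fintype.sum_bool]
      show (∑ u, co T u) + ((∑ u, co T u) + 0) = 0
      rw [add_zero, z2_add]
    · rw [Fintype.sum_sum_type, Fintype.sum_bool]
      show (∑ u, ((∑ w, (G.m u w : ZMod 2)) + co T u)) + (0 + (∑ u, co T u)) = 0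
      rw [Finset.sum_add_distrib, sum_symm_zero (fun u w => (G.m u w : ZMod 2)), zero_add]
      · exact z2_add _
      · intro u v; show (G.m u v : ZMod 2) = (G.m v u : ZMod 2); rw [G.symm]
      · intro u; show (G.m u u : ZMod 2) = 0; rw [G.loopless]; rfl

/-- lists and rank functions -/
theorem list_of_rank {V : Type} [Fintype V] (σ : V → ℤ) (hσ : Function.Injective σ) :
    ∃ l : List V, l.Nodup ∧ (∀ w, w ∈ l) ∧
      ∀ (l1 : List V) (e : V) (l2 : List V), l = l1 ++ e :: l2 → ∀ u, u ∈ l1 ↔ σ u < σ e := by
  classical
  letI : LinearOrder V := LinearOrder.lift' σ hσ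
  have hlt : ∀ a b : V, a < b ↔ σ a < σ b := fun a b => Iff.rfl
  refine ⟨(univ : Finset V).sort (· ≤ ·), Finset.sort_nodup _ _, fun w => by simp, ?_⟩
  intro l1 e l2 hl u
  have hs : ((univ : Finset V).sort (· ≤ ·)).Pairwise (· < ·) := Finset.sortedLT_sort _ |>.pairwise
  have hmem : u ∈ (univ : Finset V).sort (· ≤ ·) := by simp
  rw [hl] at hs hmem
  rw [List.pairwise_append, List.pairwise_cons] at hs
  obtain ⟨-, ⟨h2, -⟩, h3⟩ := hs
  rw [List.mem_append, List.mem_cons] at hmem
  constructor
  · intro h
    exact (hlt _ _).1 (h3 u h e List.mem_cons_self)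
  · intro h
    rcases hmem with hm | rfl | hm
    · exact hm
    · exact absurd h (lt_irrefl _)
    · exact absurd h (not_lt.2 ((hlt _ _).1 (h2 u hm)).le)

theorem rank_of_list {V : Type} (l : List V) (hnd : l.Nodup)
    (hall : ∀ w, w ∈ l) : ∃ σ : V → ℤ, Function.Injective σ ∧
      (∀ v, 0 ≤ σ v) ∧
      ∀ (l1 : List V) (e : V) (l2 : List V), l = l1 ++ e :: l2 → ∀ u, u ∈ l1 ↔ σ u < σ e := by
  classical
  refine ⟨fun v => (l.idxOf v : ℤ), ?_, fun v => by positivity, ?_⟩
  · intro a b hab
    have h : l.idxOf a = l.idxOf b := Int.ofNat_inj.1 hab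
    exact (List.idxOf_inj (hall a)).1 h
  · intro l1 e l2 hl u
    show u ∈ l1 ↔ (l.idxOf u : ℤ) < (l.idxOf e : ℤ)
    rw [Nat.cast_lt]
    rw [hl] at hnd
    rw [List.nodup_append] at hnd
    obtain ⟨-, -, h3⟩ := hnd
    have he : e ∉ l1 := fun h => h3 e h e List.mem_cons_self rfl
    have hie : l.idxOf e = l1.length := by
      rw [hl, List.idxOf_append_of_notMem he, List.idxOf_cons_self, add_zero]
    rw [hie]
    constructor
    · intro h
      rw [hl, List.idxOf_append_of_mem h]
      exact List.idxOf_lt_length_iff.2 h
    · intro h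
      by_contra hu
      rw [hl, List.idxOf_append_of_notMem hu] at h
      omega

theorem bd_neg {V : Type} [Fintype V] {A : Gr V} (hA : IsEv A) {σ : V → ℤ}
    (hσ : Function.Injective σ) (v : V) : bd A (fun w => -σ w) v = bd A σ v := by
  unfold bd
  have h : ∑ w, (if -σ w < -σ v then A v w else 0) + ∑ w, (if σ w < σ v then A v w else 0) = 0 := by
    rw [← Finset.sum_add_distrib]
    refine Eq.trans ?_ (hA.even v)
    apply Finset.sum_congr rfl
    intro w _
    rcases lt_trichotomy (σ w) (σ v) with h | h | h
    · rw [if_neg (by omega), if_pos h, zero_add]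
    · rw [if_neg (by omega), if_neg (by omega), hσ h, hA.diag, add_zero]
    · rw [if_pos (by omega), if_neg (by omega), add_zero]
  have := z2_add (∑ w, (if σ w < σ v then A v w else 0))
  exact add_right_cancel (h.trans this.symm)

theorem list_sum_odd {V : Type} [Fintype V] (G : MGraph V) (σ : V → ℤ) (l1 : List V) (e : V)
    (hnd : l1.Nodup) (h : ∀ u, u ∈ l1 ↔ σ u < σ e) :
    (((l1.map (fun u => G.m u e)).sum : ℕ) : ZMod 2) =
      ∑ w, if σ w < σ e then (G.m e w : ZMod 2) else 0 := by
  classical
  rw [← List.sum_toFinset _ hnd]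
  push_cast
  rw [← Finset.sum_filter]
  have : l1.toFinset = univ.filter fun w => σ w < σ e := by
    ext w
    rw [List.mem_toFinset, mem_filter, h]
    exact ⟨fun h => ⟨mem_univ _, h⟩, fun h => h.2⟩
  rw [this]
  apply Finset.sum_congr rfl
  intro w _
  rw [G.symm]

theorem order_iff_nu (h2 : S_A2) (h3 : S_A3) {V : Type} [Fintype V] [DecidableEq V]
    (G : MGraph V) (T : Set V) :
    HasAcyclicTOdd G T ↔ nu (aux G T) = Fintype.card V := by
  classical
  have hN := N h2 h3
  have hE := aux_isEv G T
  have hG : IsGr (aux G T) := ⟨hE.symm, hE.diag⟩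
  rw [Pool.Agent.H580R3.AOTaskA.taskA V G T]
  constructor
  · rintro ⟨l, hnd, hall, hpar⟩
    obtain ⟨σ0, hσ0, hpos, hsp⟩ := rank_of_list l hnd hall
    let M : ℤ := ∑ v, σ0 v + 1
    have hM : ∀ v, σ0 v < M := by
      intro v
      have := Finset.single_le_sum (fun u _ => hpos u) (mem_univ v)
      show σ0 v < ∑ v, σ0 v + 1
      omega
    let σ : V ⊕ Bool → ℤ := fun x => match x with
      | .inl v => σ0 v
      | .inr false => -1
      | .inr true => M
    have hM0 : -1 < M := by
      have : 0 ≤ ∑ v, σ0 v := Finset.sum_nonneg (fun u _ => hpos u)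
      show -1 < ∑ v, σ0 v + 1
      omega
    have hσ : Function.Injective σ := by
      rintro (u | (_ | _)) (v | (_ | _)) h
      · rw [hσ0 h]
      · have h1 := hpos u
        have h2 : σ0 u = -1 := h
        omega
      · have h1 := hM u
        have h2 : σ0 u = M := h
        omega
      · have h1 := hpos v
        have h2 : -1 = σ0 v := h
        omega
      · rfl
      · have h2 : -1 = M := h
        omega
      · have h1 := hM v
        have h2 : M = σ0 v := h
        omega
      · have h2 : M = -1 := h
        omega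
      · rfl
    have hodd : ∀ v, bd (aux G T) σ (.inl v) = 1 := by
      intro v
      unfold bd
      rw [Fintype.sum_sum_type, Fintype.sum_bool]
      have e1 : (if σ (.inr true) < σ (.inl v) then aux G T (.inl v) (.inr true) else 0) = 0 := by
        rw [if_neg]
        have := hM v
        show ¬ (M < σ0 v)
        omega
      have e2 : (if σ (.inr false) < σ (.inl v) then aux G T (.inl v) (.inr false) else 0) =
          co T v := by
        rw [if_pos]
        · rfl
        · have := hpos v
          show -1 < σ0 v
          omega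
      rw [e1, e2, zero_add]
      obtain ⟨l1, l2, hl⟩ := List.append_of_mem (hall v)
      have hnd1 : l1.Nodup := by rw [hl] at hnd; exact (List.nodup_append.1 hnd).1
      have h1 := list_sum_odd G σ0 l1 v hnd1 (hsp l1 v l2 hl)
      have h2 : ∑ w, (if σ (.inl w) < σ (.inl v) then aux G T (.inl v) (.inl w) else 0) =
          ∑ w, if σ0 w < σ0 v then (G.m v w : ZMod 2) else 0 := rfl
      rw [h2, ← h1]
      have h3 := hpar l1 v l2 hl
      rw [← cast_eq_one_iff] at h3
      unfold co
      by_cases hv : v ∈ T
      · rw [if_pos hv, add_zero]; exact h3.2 hv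
      · rw [if_neg hv]
        have : (((l1.map (fun u => G.m u v)).sum : ℕ) : ZMod 2) ≠ 1 := fun h => hv (h3.1 h)
        revert this
        generalize (((l1.map (fun u => G.m u v)).sum : ℕ) : ZMod 2) = c
        revert c
        decide
    have hge : Fintype.card V ≤ nu (aux G T) := by
      refine le_trans ?_ ((hN _ _ hG).1 σ hσ)
      have : (univ : Finset V).card ≤ (univ.filter fun v => bd (aux G T) σ v = 1).card := by
        apply Finset.card_le_card_of_injOn (fun v => Sum.inl v)
        · intro v _
          exact Finset.mem_coe.2 (mem_filter.2 ⟨mem_univ _, hodd v⟩)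
        · intro a _ b _ hab
          exact Sum.inl_injective hab
      simpa using this
    apply le_antisymm _ hge
    by_cases h0 : aux G T = 0
    · rw [h0]
      have : nu (0 : Gr (V ⊕ Bool)) = 0 := by
        unfold nu
        have : Lap (0 : Gr (V ⊕ Bool)) = 0 := by
          funext u v
          unfold Lap
          simp
        rw [this, Matrix.rank_zero]
      rw [this]; exact Nat.zero_le _
    · have h1 := WD2 hN _ _ hE h0
      have h2 := Finset.card_le_univ (supp (aux G T))
      rw [Fintype.card_sum, Fintype.card_bool] at h2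
      omega
  · intro hnu
    have hcard : nu (aux G T) + 2 = Fintype.card (V ⊕ Bool) := by
      rw [hnu, Fintype.card_sum, Fintype.card_bool]
    have hex : ∃ σ : V ⊕ Bool → ℤ, Function.Injective σ ∧
        (∀ v, bd (aux G T) σ (.inl v) = 1) ∧ (∀ v : V, σ (.inr false) < σ (.inl v)) ∧
        (∀ v : V, σ (.inl v) < σ (.inr true)) := by
      obtain ⟨σ, hσ, hodd⟩ := PQ h2 h3 _ _ hE hcard (.inr false) (.inr true) (by simp)
      have hodd' : ∀ v, bd (aux G T) σ (.inl v) = 1 := fun v => hodd _ (by simp) (by simp)
      have hmin : ∃ b : Bool, ∀ x, σ (.inr b) ≤ σ x := by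
        obtain ⟨p, -, hp⟩ := Finset.exists_min_image (univ : Finset (V ⊕ Bool)) σ
          ⟨.inr true, mem_univ _⟩
        rcases p with v | b
        · exfalso
          have h0 : bd (aux G T) σ (.inl v) = 0 := by
            unfold bd
            apply Finset.sum_eq_zero
            intro w _
            rw [if_neg (not_lt.2 (hp w (mem_univ w)))]
          rw [hodd' v] at h0
          exact absurd h0 (by decide)
        · exact ⟨b, fun x => hp x (mem_univ x)⟩
      have hmax : ∃ b : Bool, ∀ x, σ x ≤ σ (.inr b) := by
        obtain ⟨p, -, hp⟩ := Finset.exists_max_image (univ : Finset (V ⊕ Bool)) σ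
          ⟨.inr true, mem_univ _⟩
        rcases p with v | b
        · exfalso
          have h0 : bd (aux G T) σ (.inl v) = 0 := by
            rw [← bd_neg hE hσ]
            unfold bd
            apply Finset.sum_eq_zero
            intro w _
            rw [if_neg]
            have := hp w (mem_univ w)
            show ¬ (-σ w < -σ (.inl v))
            omega
          rw [hodd' v] at h0
          exact absurd h0 (by decide)
        · exact ⟨b, fun x => hp x (mem_univ x)⟩
      obtain ⟨b, hb⟩ := hmin
      obtain ⟨c, hc⟩ := hmax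
      have hbc : b ≠ c := by
        rintro rfl
        have h1 := hb (.inr true)
        have h2 := hc (.inr true)
        have h3 := hb (.inr false)
        have h4 := hc (.inr false)
        have h5 : σ (.inr true) = σ (.inr false) := by omega
        exact absurd (hσ h5) (by simp)
      have hlt1 : ∀ v : V, σ (.inr b) < σ (.inl v) := by
        intro v
        refine lt_of_le_of_ne (hb _) (fun h => ?_)
        exact absurd (hσ h) (by simp)
      have hlt2 : ∀ v : V, σ (.inl v) < σ (.inr c) := by
        intro v
        refine lt_of_le_of_ne (hc _) (fun h => ?_)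
        exact absurd (hσ h) (by simp)
      cases b with
      | false =>
        have : c = true := by cases c; exact absurd rfl hbc; rfl
        subst this
        exact ⟨σ, hσ, hodd', hlt1, hlt2⟩
      | true =>
        have : c = false := by cases c; rfl; exact absurd rfl hbc
        subst this
        refine ⟨fun x => -σ x, fun a b h => hσ (neg_injective h), ?_, ?_, ?_⟩
        · intro v; rw [bd_neg hE hσ]; exact hodd' v
        · intro v; exact neg_lt_neg (hlt2 v)
        · intro v; exact neg_lt_neg (hlt1 v)
    obtain ⟨σ, hσ, hodd, hlt1, hlt2⟩ := hex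
    obtain ⟨l, hnd, hall, hsp⟩ := list_of_rank (fun v : V => σ (.inl v))
      (fun a b h => Sum.inl_injective (hσ h))
    refine ⟨l, hnd, hall, ?_⟩
    intro l1 e l2 hl
    have hnd1 : l1.Nodup := by rw [hl] at hnd; exact (List.nodup_append.1 hnd).1
    have h1 := list_sum_odd G (fun v : V => σ (.inl v)) l1 e hnd1 (hsp l1 e l2 hl)
    rw [← cast_eq_one_iff, h1]
    have h4 := hodd e
    unfold bd at h4
    rw [Fintype.sum_sum_type, Fintype.sum_bool] at h4
    have e1 : (if σ (.inr true) < σ (.inl e) then aux G T (.inl e) (.inr true) else 0) = 0 := by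
      rw [if_neg]
      exact not_lt.2 (hlt2 e).le
    have e2 : (if σ (.inr false) < σ (.inl e) then aux G T (.inl e) (.inr false) else 0) =
        co T e := by
      rw [if_pos (hlt1 e)]
      rfl
    rw [e1, e2, zero_add] at h4
    have h5 : ∑ w, (if σ (.inl w) < σ (.inl e) then aux G T (.inl e) (.inl w) else 0) =
        ∑ w, if σ (.inl w) < σ (.inl e) then (G.m e w : ZMod 2) else 0 := rfl
    rw [h5] at h4
    unfold co at h4
    by_cases hv : e ∈ T
    · rw [if_pos hv, add_zero] at h4
      exact ⟨fun _ => hv, fun _ => h4⟩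
    · rw [if_neg hv] at h4
      constructor
      · intro h6
        rw [h6] at h4
        exact absurd h4 (by decide)
      · intro h; exact absurd h hv

end Pool.Agent.W146.SD
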