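import Pool.Agent.W390.SD.Defs
import Pool.Agent.H580R3.AOTaskA

/-!
# MP_7f2998_co: statements for the reduction to even graphs

`bd A σ v` is the parity of the number of neighbours of `v` that come before `v` in the order
given by the injective rank function `σ`.
-/

set_option autoImplicit false

namespace Pool.Agent.W146.SD

open Finset MvPolynomial Pool.Agent.W390.SD

/-- symmetric and loopless adjacency functions -/
structure IsGr {V : Type} (A : Gr V) : Prop where
  symm : ∀ u v, A u v = A v u
  diag : ∀ v, A v v = 0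

/-- parity of the number of neighbours of `v` before `v` -/
def bd {V : Type} [Fintype V] (A : Gr V) (σ : V → ℤ) (v : V) : ZMod 2 :=
  ∑ w, if σ w < σ v then A v w else 0

/-- (A1): if all `v ∈ J` have odd back-degree in some order, then `∂_J P_A ≠ 0`. -/
def S_A1 : Prop :=
  ∀ (V : Type) [Fintype V] [DecidableEq V] (A : Gr V), IsGr A →
    ∀ σ : V → ℤ, Function.Injective σ → ∀ J : Finset V, (∀ v ∈ J, bd A σ v = 1) → PJ A J ≠ 0

/-- (A2): if `∂_J P_A ≠ 0` then all `v ∈ J` have odd back-degree in some order. -/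
def S_A2 : Prop :=
  ∀ (V : Type) [Fintype V] [DecidableEq V] (A : Gr V), IsGr A →
    ∀ J : Finset V, PJ A J ≠ 0 →
      ∃ σ : V → ℤ, Function.Injective σ ∧ ∀ v ∈ J, bd A σ v = 1

/-- (A3): `(∂_J P_A)^2` is the principal minor of the Laplacian on `J` times `P_A^2`. -/
def S_A3 : Prop :=
  ∀ (V : Type) [Fintype V] [DecidableEq V] (A : Gr V), IsGr A →
    ∀ J : Finset V,
      (algebraMap (R V) (F V) (PJ A J)) ^ 2 =
        ((Lap A).submatrix (Subtype.val : J → V) (Subtype.val : J → V)).det *
          (algebraMap (R V) (F V) (PP A)) ^ 2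

/-- (N): the rank of the Laplacian is the maximal number of odd back-degrees. -/
def S_N : Prop :=
  ∀ (V : Type) [Fintype V] [DecidableEq V] (A : Gr V), IsGr A →
    (∀ σ : V → ℤ, Function.Injective σ → (univ.filter fun v => bd A σ v = 1).card ≤ nu A) ∧
    (∃ σ : V → ℤ, Function.Injective σ ∧ (univ.filter fun v => bd A σ v = 1).card = nu A)

/-- (PQ): if `A` is even of rank `|V| - 2` and `p ≠ q`, then some order has odd back-degrees
exactly outside `p`, `q`. -/
def S_PQ : Prop :=
  ∀ (V : Type) [Fintype V] [DecidableEq V] (A : Gr V), IsEv A → nu A + 2 = Fintype.card V →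
    ∀ p q : V, p ≠ q → ∃ σ : V → ℤ, Function.Injective σ ∧ ∀ v, v ≠ p → v ≠ q → bd A σ v = 1

/-- (WD1): the rank of an odd clique. -/
def S_WD1 : Prop :=
  ∀ (V : Type) [Fintype V] [DecidableEq V] (S : Finset V), Odd S.card →
    nu (K S) = (S.card - 1) / 2

/-- (WD2): a nonzero even graph has rank at most `|supp| - 2`. -/
def S_WD2 : Prop :=
  ∀ (V : Type) [Fintype V] [DecidableEq V] (A : Gr V), IsEv A → A ≠ 0 →
    nu A + 2 ≤ (supp A).card

/-- (WD3): the rank has the parity of the number of edges. -/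
def S_WD3 : Prop :=
  ∀ (V : Type) [Fintype V] [DecidableEq V] (A : Gr V), IsGr A →
    nu A % 2 = (edg A).card % 2

/-- (WD4): the rank is subadditive. -/
def S_WD4 : Prop :=
  ∀ (V : Type) [Fintype V] [DecidableEq V] (A B : Gr V), nu (A + B) ≤ nu A + nu B

/-- (SD): every even graph has a tight decomposition into basic graphs. -/
def S_SD : Prop :=
  ∀ (V : Type) [Fintype V] [DecidableEq V] (A : Gr V), IsEv A →
    ∃ L : List (Gr V), (∀ B ∈ L, IsEv B ∧ B ≠ 0 ∧ Basic B) ∧ L.sum = A ∧
      (L.map nu).sum = nu A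

end Pool.Agent.W146.SD
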