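import Pool.Agent.W146.SD.Nu

/-! # Weak duality -/

set_option autoImplicit false

namespace Pool.Agent.W146.SD

open Finset MvPolynomial Pool.Agent.W390.SD

theorem F_add_self {V : Type} (a : F V) : a + a = 0 := by
  have h : (1 : F V) + 1 = 0 := by
    have h1 : ((1 : ZMod 2) + 1) = 0 := by decide
    have h2 : algebraMap (R V) (F V) (C ((1 : ZMod 2) + 1)) = 0 := by
      rw [h1, map_zero, map_zero]
    rw [map_add, map_add, map_one, map_one] at h2
    exact h2
  calc a + a = (1 + 1) * a := by ring
    _ = 0 := by rw [h, zero_mul]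

theorem F_eq_of_add {V : Type} {a b : F V} (h : a + b = 0) : a = b := by
  calc a = a + (b + b) := by rw [F_add_self, add_zero]
    _ = (a + b) + b := by ring
    _ = b := by rw [h, zero_add]

theorem xF_add_ne {V : Type} {u v : V} (h : u ≠ v) : xF u + xF v ≠ 0 := by
  classical
  unfold xF xx
  rw [← map_add]
  intro h0
  have hinj : Function.Injective (algebraMap (R V) (F V)) := IsFractionRing.injective _ _
  have h1 := (map_eq_zero_iff _ hinj).1 h0
  have := congrArg (coeff (Finsupp.single u 2)) h1
  rw [coeff_add, coeff_X_pow, coeff_X_pow, if_pos rfl, if_neg, coeff_zero, add_zero] at this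
  · exact one_ne_zero this
  · intro h1
    exact h (Finsupp.single_left_injective two_ne_zero h1).symm

theorem ite_add {V : Type} (a b : ZMod 2) (w : F V) :
    (if a + b = 0 then 0 else w) = (if a = 0 then 0 else w) + (if b = 0 then 0 else w) := by
  have hc : ∀ c : ZMod 2, c = 0 ∨ c = 1 := by decide
  rcases hc a with rfl | rfl <;> rcases hc b with rfl | rfl
  · simp
  · simp
  · simp
  · have : (1 : ZMod 2) + 1 = 0 := by decide
    rw [if_pos this, if_neg one_ne_zero, F_add_self]

theorem Lap_add {V : Type} [Fintype V] [DecidableEq V] (A B : Gr V) :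
    Lap (A + B) = Lap A + Lap B := by
  funext u v
  rw [Matrix.add_apply]
  unfold Lap
  by_cases h : u = v
  · subst h
    rw [if_pos rfl, if_pos rfl, if_pos rfl, ← Finset.sum_add_distrib]
    apply Finset.sum_congr rfl
    intro w _
    exact ite_add _ _ _
  · rw [if_neg h, if_neg h, if_neg h]
    exact ite_add _ _ _

theorem WD4 : S_WD4 := by
  intro V _ _ A B
  unfold nu
  rw [Lap_add]
  unfold Matrix.rank
  rw [Matrix.mulVecLin_add]
  calc Module.finrank (F V) (LinearMap.range ((Lap A).mulVecLin + (Lap B).mulVecLin)) ≤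
      Module.finrank (F V) ((LinearMap.range (Lap A).mulVecLin ⊔
        LinearMap.range (Lap B).mulVecLin : Submodule (F V) (V → F V))) := by
        apply Submodule.finrank_mono
        rintro _ ⟨x, rfl⟩
        rw [LinearMap.add_apply]
        exact Submodule.add_mem_sup ⟨x, rfl⟩ ⟨x, rfl⟩
    _ ≤ _ := Submodule.finrank_add_le_finrank_add_finrank _ _

/-! ### The kernel -/

theorem Lap_sum {V : Type} [Fintype V] [DecidableEq V] {A : Gr V} (hA : IsGr A) (y : V → F V)
    (u : V) : ∑ v, Lap A u v * y v =
      ∑ v, (if A u v = 0 then 0 else (xF u + xF v)⁻¹ * (y u + y v)) := by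
  have h1 : ∀ v, Lap A u v * y v = (if u = v then (∑ w, (if A u w = 0 then 0 else (xF u + xF w)⁻¹)) * y u else 0) +
      (if A u v = 0 then 0 else (xF u + xF v)⁻¹ * y v) := by
    intro v
    unfold Lap
    by_cases h : u = v
    · subst h
      rw [if_pos rfl, if_pos rfl, if_pos (hA.diag u), add_zero]
    · rw [if_neg h, if_neg h, zero_add]
      by_cases h' : A u v = 0
      · rw [if_pos h', if_pos h', zero_mul]
      · rw [if_neg h', if_neg h']
  rw [Finset.sum_congr rfl (fun v _ => h1 v), Finset.sum_add_distrib, Finset.sum_ite_eq,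
    if_pos (mem_univ u), Finset.sum_mul, ← Finset.sum_add_distrib]
  apply Finset.sum_congr rfl
  intro v _
  by_cases h' : A u v = 0
  · rw [if_pos h', if_pos h', if_pos h', zero_mul, add_zero]
  · rw [if_neg h', if_neg h', if_neg h']; ring

theorem Lap_one {V : Type} [Fintype V] [DecidableEq V] {A : Gr V} (hA : IsGr A) (u : V) :
    ∑ v, Lap A u v * 1 = 0 := by
  rw [Lap_sum hA (fun _ => 1)]
  apply Finset.sum_eq_zero
  intro v _
  split_ifs
  · rfl
  · rw [F_add_self, mul_zero]

theorem sum_cast {V : Type} [Fintype V] (f : V → ZMod 2) (h : ∑ v, f v = 0) :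
    ∑ v, (if f v = 0 then (0 : F V) else 1) = 0 := by
  have h1 : ∀ v, (if f v = 0 then (0 : F V) else 1) = algebraMap (R V) (F V) (C (f v)) := by
    intro v
    have hc : ∀ c : ZMod 2, c = 0 ∨ c = 1 := by decide
    rcases hc (f v) with h | h
    · rw [h, if_pos rfl, map_zero, map_zero]
    · rw [h, if_neg one_ne_zero, map_one, map_one]
  rw [Finset.sum_congr rfl (fun v _ => h1 v), ← map_sum, ← map_sum, h, map_zero, map_zero]

theorem Lap_x {V : Type} [Fintype V] [DecidableEq V] {A : Gr V} (hA : IsEv A) (u : V) :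
    ∑ v, Lap A u v * xF v = 0 := by
  rw [Lap_sum ⟨hA.symm, hA.diag⟩ (fun v => xF v)]
  refine Eq.trans ?_ (sum_cast (A u) (hA.even u))
  apply Finset.sum_congr rfl
  intro v _
  by_cases h' : A u v = 0
  · rw [if_pos h', if_pos h']
  · rw [if_neg h', if_neg h']
    apply inv_mul_cancel₀
    apply xF_add_ne
    rintro rfl
    exact h' (hA.diag u)

theorem PQ (h2 : S_A2) (h3 : S_A3) : S_PQ := by
  intro V _ _ A hA hnu p q hpq
  have hG : IsGr A := ⟨hA.symm, hA.diag⟩
  let J : Finset V := univ.filter fun v => v ≠ p ∧ v ≠ q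
  suffices h : PJ A J ≠ 0 by
    obtain ⟨σ, hσ, hodd⟩ := h2 V A hG J h
    exact ⟨σ, hσ, fun v hvp hvq => hodd v (mem_filter.2 ⟨mem_univ v, hvp, hvq⟩)⟩
  rw [minor_iff h3 hG]
  intro hdet
  obtain ⟨y, hy0, hy⟩ := Matrix.exists_mulVec_eq_zero_iff.2 hdet
  apply hy0
  let z : V → F V := fun i => if h : i ∈ J then y ⟨i, h⟩ else 0
  have hzp : z p = 0 := by
    simp only [z]
    rw [dif_neg]
    intro h; exact (mem_filter.1 h).2.1 rfl
  have hzq : z q = 0 := by
    simp only [z]
    rw [dif_neg]
    intro h; exact (mem_filter.1 h).2.2 rfl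
  have hz : ∀ f : V → F V, ∑ i, f i * z i = ∑ j : J, f j * y j := by
    intro f
    rw [← Finset.sum_subset (Finset.subset_univ J)]
    · rw [← Finset.sum_coe_sort J]
      apply Finset.sum_congr rfl
      intro j _
      simp only [z]
      rw [dif_pos j.2]
    · intro i _ hi
      simp only [z]
      rw [dif_neg hi, mul_zero]
  let w : V → F V := fun u => ∑ v, Lap A u v * z v
  have hwJ : ∀ u, u ≠ p → u ≠ q → w u = 0 := by
    intro u hup huq
    show ∑ v, Lap A u v * z v = 0
    rw [hz]
    have := congrFun hy ⟨u, mem_filter.2 ⟨mem_univ u, hup, huq⟩⟩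
    simpa [Matrix.mulVec, dotProduct] using this
  -- w is orthogonal to 1 and x
  have horth : ∀ g : V → F V, (∀ u, ∑ v, Lap A u v * g v = 0) → ∑ u, g u * w u = 0 := by
    intro g hg
    calc ∑ u, g u * w u = ∑ u, ∑ v, g u * (Lap A u v * z v) := by
          apply Finset.sum_congr rfl
          intro u _
          exact Finset.mul_sum _ _ _
      _ = ∑ v, ∑ u, g u * (Lap A u v * z v) := Finset.sum_comm
      _ = ∑ v, (∑ u, Lap A v u * g u) * z v := by
          apply Finset.sum_congr rfl
          intro v _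
          rw [Finset.sum_mul]
          apply Finset.sum_congr rfl
          intro u _
          rw [Lap_symm hG u v]; ring
      _ = 0 := by
          apply Finset.sum_eq_zero
          intro v _
          rw [hg v, zero_mul]
  have hpair : ∀ g : V → F V, ∑ u, g u * w u = g p * w p + g q * w q := by
    intro g
    rw [← Finset.sum_subset (Finset.subset_univ ({p, q} : Finset V))]
    · rw [Finset.sum_pair hpq]
    · intro u _ hu
      rw [mem_insert, mem_singleton, not_or] at hu
      rw [hwJ u hu.1 hu.2, mul_zero]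
  have e1 := horth (fun _ => 1) (fun u => Lap_one hG u)
  have e2 := horth (fun v => xF v) (fun u => Lap_x hA u)
  rw [hpair] at e1 e2
  have e3 : w p = w q := by
    apply F_eq_of_add
    rw [one_mul, one_mul] at e1
    exact e1
  have e4 : w p = 0 := by
    rw [← e3, ← add_mul] at e2
    exact (mul_eq_zero.1 e2).resolve_left (xF_add_ne hpq)
  have hw0 : ∀ u, w u = 0 := by
    intro u
    by_cases hup : u = p
    · rw [hup]; exact e4
    · by_cases huq : u = q
      · rw [huq, ← e3]; exact e4
      · exact hwJ u hup huq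
  -- dimension count
  by_contra hy1
  have hz1 : ∃ i, z i ≠ 0 := by
    by_contra hno
    push Not at hno
    apply hy1
    funext j
    have := hno j
    simp only [z] at this
    rw [dif_pos j.2] at this
    exact this
  obtain ⟨i0, hi0⟩ := hz1
  have hmem : ∀ g : V → F V, (∀ u, ∑ v, Lap A u v * g v = 0) →
      g ∈ LinearMap.ker (Lap A).mulVecLin := by
    intro g hg
    rw [LinearMap.mem_ker]
    funext u
    exact hg u
  let f : Fin 3 → LinearMap.ker (Lap A).mulVecLin :=
    ![⟨fun _ => 1, hmem _ (fun u => Lap_one hG u)⟩, ⟨fun v => xF v, hmem _ (fun u => Lap_x hA u)⟩,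
      ⟨z, hmem _ hw0⟩]
  have hli : LinearIndependent (F V) f := by
    rw [Fintype.linearIndependent_iff]
    intro c hc
    have hc' : ∀ v, c 0 + c 1 * xF v + c 2 * z v = 0 := by
      intro v
      have := congrFun (congrArg Subtype.val hc) v
      rw [Fin.sum_univ_three] at this
      simpa [f] using this
    have hp := hc' p
    have hq := hc' q
    rw [hzp, mul_zero, add_zero] at hp
    rw [hzq, mul_zero, add_zero] at hq
    have h1 : c 1 = 0 := by
      have : c 1 * (xF p + xF q) = 0 := by
        calc c 1 * (xF p + xF q) = (c 0 + c 1 * xF p) + (c 0 + c 1 * xF q) - (c 0 + c 0) := by ring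
          _ = 0 := by rw [hp, hq, F_add_self (c 0)]; ring
      exact (mul_eq_zero.1 this).resolve_right (xF_add_ne hpq)
    have h0 : c 0 = 0 := by rw [h1, zero_mul, add_zero] at hp; exact hp
    have h2' : c 2 = 0 := by
      have := hc' i0
      rw [h0, h1, zero_mul, add_zero, zero_add] at this
      exact (mul_eq_zero.1 this).resolve_right hi0
    intro i
    fin_cases i
    · exact h0
    · exact h1
    · exact h2'
  have hcard := hli.fintype_card_le_finrank
  rw [Fintype.card_fin] at hcard
  have hrn := LinearMap.finrank_range_add_finrank_ker (Lap A).mulVecLin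
  rw [Module.finrank_fintype_fun_eq_card] at hrn
  unfold nu Matrix.rank at hnu
  omega

/-! ### Counting -/

theorem half_count (n : ℕ) : ((range n).filter fun k => Odd k).card = n / 2 := by
  induction n with
  | zero => rfl
  | succ n ih =>
    rw [Finset.range_add_one, Finset.filter_insert]
    by_cases h : Odd n
    · rw [if_pos h, card_insert_of_notMem, ih]
      · obtain ⟨k, hk⟩ := h; omega
      · intro h'; exact absurd (mem_range.1 (mem_filter.1 h').1) (lt_irrefl n)
    · rw [if_neg h, ih]
      rw [Nat.not_odd_iff_even] at h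
      obtain ⟨k, hk⟩ := h; omega

theorem cast_eq_one_iff (n : ℕ) : ((n : ℕ) : ZMod 2) = 1 ↔ Odd n :=
  ZMod.natCast_eq_one_iff_odd

theorem K_count {V : Type} [Fintype V] [DecidableEq V] (S : Finset V) {σ : V → ℤ}
    (hσ : Function.Injective σ) :
    (univ.filter fun v => bd (K S) σ v = 1).card = S.card / 2 := by
  let rk : V → ℕ := fun v => (S.filter fun w => σ w < σ v).card
  have hlt : ∀ a b, a ∈ S → σ a < σ b → rk a < rk b := by
    intro a b ha hab
    apply Finset.card_lt_card
    rw [Finset.ssubset_iff_of_subset]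
    · exact ⟨a, mem_filter.2 ⟨ha, hab⟩, fun h => lt_irrefl _ (mem_filter.1 h).2⟩
    · intro w hw
      rw [mem_filter] at hw ⊢
      exact ⟨hw.1, hw.2.trans hab⟩
  have hinj : Set.InjOn rk S := by
    intro a ha b hb hab
    by_contra hne
    rcases lt_or_gt_of_ne (fun h => hne (hσ h)) with h | h
    · exact absurd hab (hlt a b ha h).ne
    · exact absurd hab (hlt b a hb h).ne'
  have himg : S.image rk = range S.card := by
    apply Finset.eq_of_subset_of_card_le
    · intro k hk
      obtain ⟨a, ha, rfl⟩ := mem_image.1 hk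
      rw [mem_range]
      apply Finset.card_lt_card
      rw [Finset.ssubset_iff_of_subset (filter_subset _ _)]
      exact ⟨a, ha, fun h => lt_irrefl _ (mem_filter.1 h).2⟩
    · rw [card_range, card_image_of_injOn hinj]
  have h1 : (univ.filter fun v => bd (K S) σ v = 1) = S.filter fun v => Odd (rk v) := by
    ext v
    rw [mem_filter, mem_filter, bd_eq_card, cast_eq_one_iff]
    by_cases hv : v ∈ S
    · have : (univ.filter fun w => σ w < σ v ∧ K S v w ≠ 0) = S.filter fun w => σ w < σ v := by
        ext w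
        rw [mem_filter, mem_filter]
        unfold K
        constructor
        · rintro ⟨-, h1, h2⟩
          refine ⟨?_, h1⟩
          by_contra hw
          apply h2
          rw [if_neg]
          rintro ⟨_, h, _⟩; exact hw h
        · rintro ⟨h1, h2⟩
          refine ⟨mem_univ _, h2, ?_⟩
          have hne : v ≠ w := by rintro rfl; exact lt_irrefl _ h2
          rw [if_pos ⟨hv, h1, hne⟩]
          exact one_ne_zero
      rw [this]
      exact ⟨fun h => ⟨hv, h.2⟩, fun h => ⟨mem_univ _, h.2⟩⟩
    · have : (univ.filter fun w => σ w < σ v ∧ K S v w ≠ 0) = ∅ := by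
        apply Finset.filter_eq_empty_iff.2
        rintro w - ⟨_, h2⟩
        apply h2
        unfold K
        rw [if_neg]
        rintro ⟨h, _⟩; exact hv h
      rw [this, card_empty]
      constructor
      · rintro ⟨_, h⟩; exact absurd h (by decide)
      · rintro ⟨h, _⟩; exact absurd h hv
  rw [h1, ← half_count S.card, ← himg, Finset.filter_image, card_image_of_injOn]
  intro a ha b hb
  exact hinj (mem_filter.1 ha).1 (mem_filter.1 hb).1

theorem K_isGr {V : Type} [Fintype V] [DecidableEq V] (S : Finset V) : IsGr (K S) := by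
  constructor
  · intro u v
    unfold K
    by_cases h : u ∈ S ∧ v ∈ S ∧ u ≠ v
    · rw [if_pos h, if_pos ⟨h.2.1, h.1, h.2.2.symm⟩]
    · rw [if_neg h, if_neg]
      rintro ⟨h1, h2, h3⟩; exact h ⟨h2, h1, h3.symm⟩
  · intro v
    unfold K
    rw [if_neg]
    rintro ⟨_, _, h⟩; exact h rfl

theorem WD1 (hN : S_N) : S_WD1 := by
  intro V _ _ S hS
  obtain ⟨σ, hσ, h⟩ := (hN V (K S) (K_isGr S)).2
  rw [← h, K_count S hσ]
  obtain ⟨k, hk⟩ := hS
  omega

theorem mem_supp {V : Type} [Fintype V] {A : Gr V} {v : V} :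
    v ∈ supp A ↔ ∃ u, A v u ≠ 0 := by
  unfold supp nbr
  rw [mem_filter]
  constructor
  · rintro ⟨_, u, hu⟩; exact ⟨u, (mem_filter.1 hu).2⟩
  · rintro ⟨u, hu⟩; exact ⟨mem_univ _, u, mem_filter.2 ⟨mem_univ _, hu⟩⟩

theorem WD2 (hN : S_N) : S_WD2 := by
  intro V _ _ A hA hA0
  have hG : IsGr A := ⟨hA.symm, hA.diag⟩
  obtain ⟨σ, hσ, h⟩ := (hN V A hG).2
  rw [← h]
  have hne : ∃ u v, A u v ≠ 0 := by
    by_contra hno
    push Not at hno
    exact hA0 (funext fun u => funext fun v => hno u v)
  obtain ⟨u0, v0, huv⟩ := hne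
  have hu0 : u0 ∈ supp A := mem_supp.2 ⟨v0, huv⟩
  have hv0 : v0 ∈ supp A := mem_supp.2 ⟨u0, by rw [hG.symm]; exact huv⟩
  have huv' : u0 ≠ v0 := by rintro rfl; exact huv (hG.diag u0)
  obtain ⟨p, hp, hpmin⟩ := Finset.exists_min_image (supp A) σ ⟨u0, hu0⟩
  obtain ⟨q, hq, hqmax⟩ := Finset.exists_max_image (supp A) σ ⟨u0, hu0⟩
  have hpq : p ≠ q := by
    rintro rfl
    apply huv'
    apply hσ
    have h1 := hpmin u0 hu0
    have h2 := hpmin v0 hv0
    have h3 := hqmax u0 hu0
    have h4 := hqmax v0 hv0
    omega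
  have hbp : bd A σ p = 0 := by
    unfold bd
    apply Finset.sum_eq_zero
    intro w _
    by_cases hlt : σ w < σ p
    · rw [if_pos hlt]
      by_contra hw
      have : w ∈ supp A := mem_supp.2 ⟨p, by rw [hG.symm]; exact hw⟩
      exact absurd (hpmin w this) (not_le.2 hlt)
    · rw [if_neg hlt]
  have hbq : bd A σ q = 0 := by
    unfold bd
    refine Eq.trans ?_ (hA.even q)
    apply Finset.sum_congr rfl
    intro w _
    by_cases hlt : σ w < σ q
    · rw [if_pos hlt]
    · rw [if_neg hlt]
      by_contra hw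
      have hw' : A q w ≠ 0 := fun h => hw h.symm
      have h1 : w ∈ supp A := mem_supp.2 ⟨q, by rw [hG.symm]; exact hw'⟩
      have h2 := hqmax w h1
      have h3 : w = q := hσ (le_antisymm h2 (not_lt.1 hlt))
      rw [h3] at hw'
      exact hw' (hG.diag q)
  have hsub : (univ.filter fun v => bd A σ v = 1) ⊆ ((supp A).erase p).erase q := by
    intro v hv
    have hv1 := (mem_filter.1 hv).2
    rw [mem_erase, mem_erase]
    refine ⟨?_, ?_, ?_⟩
    · rintro rfl; rw [hbq] at hv1; exact absurd hv1 (by decide)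
    · rintro rfl; rw [hbp] at hv1; exact absurd hv1 (by decide)
    · rw [mem_supp]
      by_contra hno
      push Not at hno
      have : bd A σ v = 0 := by
        unfold bd
        apply Finset.sum_eq_zero
        intro w _
        rw [hno w, ite_self]
      rw [this] at hv1
      exact absurd hv1 (by decide)
  have hcard := Finset.card_le_card hsub
  have h1 := Finset.card_erase_of_mem (mem_erase.2 ⟨hpq.symm, hq⟩ : q ∈ (supp A).erase p)
  have h2 := Finset.card_erase_of_mem hp
  have h3 : 0 < (supp A).card := Finset.card_pos.2 ⟨p, hp⟩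
  have h4 : 0 < ((supp A).erase p).card := Finset.card_pos.2 ⟨q, mem_erase.2 ⟨hpq.symm, hq⟩⟩
  omega

theorem edg_card {V : Type} [Fintype V] [DecidableEq V] {A : Gr V} (hA : IsGr A)
    {σ : V → ℤ} (hσ : Function.Injective σ) :
    ((edg A).card : ZMod 2) = (((univ.filter fun v => bd A σ v = 1).card : ℕ) : ZMod 2) := by
  classical
  let g : V → Sym2 V → ℕ := fun v e => if (∃ u, e = s(u, v) ∧ σ u < σ v) then 1 else 0
  have hg : ∀ v u w, σ u < σ w → g v s(u, w) = if w = v then 1 else 0 := by
    intro v u w huw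
    simp only [g]
    by_cases hw : w = v
    · subst hw
      rw [if_pos ⟨u, rfl, huw⟩, if_pos rfl]
    · rw [if_neg hw, if_neg]
      rintro ⟨a, ha, hlt⟩
      rcases Sym2.eq_iff.1 ha with ⟨rfl, rfl⟩ | ⟨rfl, rfl⟩
      · exact hw rfl
      · exact absurd huw (not_lt.2 hlt.le)
  have h1 : (edg A).card = ∑ e ∈ edg A, ∑ v, g v e := by
    rw [Finset.card_eq_sum_ones]
    apply Finset.sum_congr rfl
    intro e he
    induction e using Sym2.ind with
    | _ a b =>
      rw [mem_edg hA] at he
      have hab : a ≠ b := by rintro rfl; exact he (hA.diag a)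
      rcases lt_trichotomy (σ a) (σ b) with h | h | h
      · rw [Finset.sum_congr rfl (fun v _ => hg v a b h), Finset.sum_ite_eq, if_pos (mem_univ _)]
      · exact absurd (hσ h) hab
      · rw [Sym2.eq_swap, Finset.sum_congr rfl (fun v _ => hg v b a h), Finset.sum_ite_eq,
          if_pos (mem_univ _)]
  rw [h1, Finset.sum_comm, Finset.card_filter]
  push_cast
  apply Finset.sum_congr rfl
  intro v _
  have h2 := edge_count hA hσ (g v) v (fun u w h => hg v u w h)
  have h3 := bd_eq_card A σ v
  rw [← h2] at h3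
  push_cast at h3
  rw [← h3]
  have hc : ∀ c : ZMod 2, c = if c = 1 then 1 else 0 := by decide
  exact hc _

theorem WD3 (hN : S_N) : S_WD3 := by
  intro V _ _ A hA
  obtain ⟨σ, hσ, h⟩ := (hN V A hA).2
  have h1 := edg_card hA hσ
  rw [h] at h1
  exact ((ZMod.natCast_eq_natCast_iff' _ _ 2).1 h1).symm

end Pool.Agent.W146.SD
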